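import Pool.Agent.H3N.QSerre.Main

set_option autoImplicit false

/-!
# The center of the positive part of the quantum affine algebra of type `A_1^(1)`

See `Pool.Agent.H3N.QSerre.Main` for the proof.
-/

namespace Pool.Agent.Results.MP_cafee0_al.TrivialCenter

open Pool.Agent.H3N.QSerre

/-- **The center of `U^+` is trivial.** Let `K` be a field and `q` a nonzero element of `K` that is
not a root of unity. Let `U^+ = RingQuot (Rel q)` be the algebra with two generators `A, A*` and the
two cubic `q`-Serre relations as relations. The center of `U^+` consists of the scalars, and the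
map from `K` to `U^+` is injective; so the center is the one-dimensional algebra `K 1`. -/
theorem result {K : Type*} [Field K] (q : K) (hq : q ≠ 0) (hr : ∀ n : ℕ, 0 < n → q ^ n ≠ 1) :
    Subalgebra.center K (RingQuot (Rel q)) = ⊥ ∧
      Function.Injective (algebraMap K (RingQuot (Rel q))) := by
  have h1 : Subalgebra.center K (U q) = ⊥ := by
    rw [eq_bot_iff]
    intro z hz
    rw [Subalgebra.mem_center_iff] at hz
    obtain ⟨c, hc⟩ := scalar_of_central q hq hr z (fun i => hz (θ q i))
    rw [Algebra.mem_bot]
    exact ⟨c, hc.symm⟩
  have h2 : Function.Injective (algebraMap K (U q)) := by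
    haveI : Nontrivial (U q) := ⟨⟨1, 0, nontriv q⟩⟩
    exact (algebraMap K (U q)).injective
  exact ⟨h1, h2⟩

end Pool.Agent.Results.MP_cafee0_al.TrivialCenter
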